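import Mathlib
import Pool.Agent.W188.QS.Stm

/-!
Project QS (helper188): Fubini for the cut Gaussian averages.
-/

set_option autoImplicit false

open MeasureTheory Set Filter Topology

namespace Pool.Agent.W928.QS

open Pool.Agent.W188.QS

theorem gg_nonneg (τ Δ t : ℝ) : 0 ≤ gg τ Δ t := (Real.exp_pos _).le

theorem gg_le (τ Δ t : ℝ) : gg τ Δ t ≤ 1 := by
  unfold gg
  rw [Real.exp_le_one_iff]
  linarith [sq_nonneg ((t - τ) / Δ)]

theorem qs_fub : StFub := by
  intro μ hμ u v Δ hu huv hΔ
  set S : Set ℝ := Ioo (u / 2) (3 * v / 2) with hS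
  have hSfin : μ S < ⊤ := lt_of_le_of_lt (measure_mono fun x hx => hx.2.le) (hμ (3 * v / 2))
  have : IsFiniteMeasure (μ.restrict S) := ⟨by rwa [Measure.restrict_apply_univ]⟩
  set F : ℝ × ℝ → ℝ := fun p => if p.1 / 2 < p.2 ∧ p.2 < 3 * p.1 / 2 then gg p.1 Δ p.2 else 0 with hF
  have hFm : Measurable F := by
    refine Measurable.ite ?_ ?_ measurable_const
    · exact (measurableSet_lt (measurable_fst.div_const 2) measurable_snd).inter
        (measurableSet_lt measurable_snd ((measurable_const.mul measurable_fst).div_const 2))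
    · unfold gg
      have : Continuous fun p : ℝ × ℝ => Real.exp (-((p.2 - p.1) / Δ) ^ 2) := by fun_prop
      exact this.measurable
  have hFb : ∀ p, ‖F p‖ ≤ 1 := by
    intro p
    simp only [hF]
    split_ifs
    · rw [Real.norm_eq_abs, abs_of_nonneg (gg_nonneg _ _ _)]
      exact gg_le _ _ _
    · simp
  have hFi : Integrable F ((volume.restrict (Ioc u v)).prod (μ.restrict S)) :=
    Integrable.of_bound hFm.aestronglyMeasurable 1 (Filter.Eventually.of_forall hFb)
  have h1 : ∀ τ ∈ Ioc u v, ∫ t in Ioo (τ / 2) (3 * τ / 2), gg τ Δ t ∂μ =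
      ∫ t, F (τ, t) ∂(μ.restrict S) := by
    intro τ hτ
    have e : (fun t => F (τ, t)) = (Ioo (τ / 2) (3 * τ / 2)).indicator (fun t => gg τ Δ t) := by
      funext t
      by_cases ht : t ∈ Ioo (τ / 2) (3 * τ / 2)
      · rw [indicator_of_mem ht]
        simp only [hF]
        rw [if_pos ⟨ht.1, ht.2⟩]
      · rw [indicator_of_notMem ht]
        simp only [hF]
        rw [if_neg (fun h : τ / 2 < t ∧ t < 3 * τ / 2 => ht ⟨h.1, h.2⟩)]
    rw [e, setIntegral_indicator measurableSet_Ioo]
    congr 2
    rw [inter_eq_self_of_subset_right]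
    intro t ht
    exact ⟨by linarith [ht.1, hτ.1], by linarith [ht.2, hτ.2]⟩
  have hPC : ∀ t, PC u v Δ t = 1 / (√Real.pi * Δ) * ∫ τ, F (τ, t) ∂(volume.restrict (Ioc u v)) := by
    intro t
    unfold PC
    rw [intervalIntegral.integral_of_le huv]
  have hzero : ∀ t, t ∉ S → PC u v Δ t = 0 := by
    intro t ht
    rw [hPC]
    have : ∫ τ in Ioc u v, F (τ, t) = ∫ τ in Ioc u v, (0 : ℝ) := by
      refine setIntegral_congr_fun measurableSet_Ioc fun τ hτ => ?_
      simp only [hF]
      rw [if_neg]
      rintro ⟨h3, h4⟩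
      exact ht ⟨by linarith [hτ.1], by linarith [hτ.2]⟩
    rw [this]
    simp
  have hPCi : Integrable (fun t => PC u v Δ t) (μ.restrict S) := by
    have := (hFi.integral_prod_right).const_mul (1 / (√Real.pi * Δ))
    refine this.congr (Filter.Eventually.of_forall fun t => ?_)
    exact (hPC t).symm
  have hc : √Real.pi * Δ ≠ 0 := by positivity
  refine ⟨?_, ?_, ?_⟩
  · have hs : Function.support (fun t => PC u v Δ t) ⊆ S := by
      intro t ht
      by_contra hcon
      exact ht (hzero t hcon)
    exact (integrableOn_iff_integrable_of_support_subset hs).1 hPCi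
  · rw [intervalIntegrable_iff_integrableOn_Ioc_of_le huv]
    exact IntegrableOn.congr_fun (f := fun τ => ∫ t, F (τ, t) ∂(μ.restrict S)) hFi.integral_prod_left
      (fun τ hτ => (h1 τ hτ).symm) measurableSet_Ioc
  · rw [intervalIntegral.integral_of_le huv,
      setIntegral_congr_fun measurableSet_Ioc (fun τ hτ => h1 τ hτ)]
    have hsw := integral_integral_swap (f := fun τ t => F (τ, t)) (μ := volume.restrict (Ioc u v))
      (ν := μ.restrict S) hFi
    rw [hsw]
    have e2 : ∫ t, PC u v Δ t ∂μ = ∫ t in S, PC u v Δ t ∂μ :=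
      (setIntegral_eq_integral_of_forall_compl_eq_zero fun t ht => hzero t ht).symm
    rw [e2, ← integral_const_mul]
    refine integral_congr_ae (Filter.Eventually.of_forall fun t => ?_)
    show ∫ τ, F (τ, t) ∂(volume.restrict (Ioc u v)) = √Real.pi * Δ * PC u v Δ t
    rw [hPC]
    field_simp

end Pool.Agent.W928.QS
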